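import Pool.Agent.helper35.MR.SpecB

/-! mr:SA4 -/

set_option autoImplicit false

open Finset

namespace Pool.Agent.helper35.MR

open Pool.Agent.RRank

theorem SA4_mk4 {Q : Fin 4 → Type} (x : (α : Fin 4) → Q α) : mk4 (x 0) (x 1) (x 2) (x 3) = x := by
  funext α
  match α with
  | 0 => rfl
  | 1 => rfl
  | 2 => rfl
  | 3 => rfl

theorem SA4_hyp0 {X Y Z W K : Type} [Field K] (T : X → Y → Z → W → K) (x : Fin 0 → X) (y : Fin 0 → Y)
    (z : Fin 0 → Z) (w : Fin 0 → W) : hyp 0 T x y z w = 1 := by
  unfold hyp
  simp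

theorem SA4_hyp1 {X Y Z W K : Type} [Field K] (T : X → Y → Z → W → K) (x : Fin 1 → X) (y : Fin 1 → Y)
    (z : Fin 1 → Z) (w : Fin 1 → W) : hyp 1 T x y z w = T (x 0) (y 0) (z 0) (w 0) := by
  unfold hyp
  simp

theorem SA4 (hHLB : HLB_stmt) (hSAF : SAF_stmt) : SA4_stmt := by
  classical
  choose G hG using hSAF
  let Gf : ℕ → ℕ → ℕ → ℕ := fun m l s => if h : 2 ≤ l then G m l s h else 0
  refine ⟨fun m l => 1 + ∑ s ∈ Finset.range l, Gf m l s, ?_⟩
  intro K _ Q T m l hFew hrank
  by_cases hex : ∃ x y z w, hyp l (fun a b c d => T (mk4 a b c d)) x y z w ≠ 0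
  · obtain ⟨x, y, z, w, hne⟩ := hex
    refine ⟨mk4 (Finset.univ.image x) (Finset.univ.image y) (Finset.univ.image z)
      (Finset.univ.image w), ?_, ?_⟩
    · intro α
      match α with
      | 0 => exact Finset.card_image_le.trans (by simp)
      | 1 => exact Finset.card_image_le.trans (by simp)
      | 2 => exact Finset.card_image_le.trans (by simp)
      | 3 => exact Finset.card_image_le.trans (by simp)
    · exact hHLB K Q T l x y z w (mk4 (Finset.univ.image x) (Finset.univ.image y)
        (Finset.univ.image z) (Finset.univ.image w))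
        (fun i => Finset.mem_image_of_mem x (Finset.mem_univ i))
        (fun i => Finset.mem_image_of_mem y (Finset.mem_univ i))
        (fun i => Finset.mem_image_of_mem z (Finset.mem_univ i))
        (fun i => Finset.mem_image_of_mem w (Finset.mem_univ i)) hne
  · push Not at hex
    -- the first `s` such that `hyp (s+1)` vanishes
    have hP : ∃ n, ∀ x y z w, hyp n (fun a b c d => T (mk4 a b c d)) x y z w = 0 := ⟨l, hex⟩
    have hspec := Nat.find_spec hP
    have hle : Nat.find hP ≤ l := Nat.find_min' hP hex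
    have hpos : Nat.find hP ≠ 0 := by
      intro h0
      rw [h0] at hspec
      have := hspec (fun i => i.elim0) (fun i => i.elim0) (fun i => i.elim0) (fun i => i.elim0)
      rw [SA4_hyp0] at this
      exact one_ne_zero this
    obtain ⟨s, hs⟩ := Nat.exists_eq_succ_of_ne_zero hpos
    have hmin : ∃ x y z w, hyp s (fun a b c d => T (mk4 a b c d)) x y z w ≠ 0 := by
      have := Nat.find_min hP (m := s) (by omega)
      push Not at this
      exact this
    rw [hs] at hspec
    have hsl : s < l := by omega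
    by_cases h2 : 2 ≤ l
    · refine hG m l s h2 K Q T hFew hmin hspec (le_trans ?_ hrank)
      have h3 : Gf m l s = G m l s h2 := dif_pos h2
      have h4 : Gf m l s ≤ ∑ s ∈ Finset.range l, Gf m l s :=
        Finset.single_le_sum (f := fun s => Gf m l s) (fun _ _ => Nat.zero_le _) (Finset.mem_range.2 hsl)
      exact_mod_cast (by omega : G m l s h2 ≤ 1 + ∑ s ∈ Finset.range l, Gf m l s)
    · exfalso
      have hl1 : l = 1 := by omega
      subst hl1
      have hT : T = fun _ => 0 := by
        funext q
        have := hex (fun _ => q 0) (fun _ => q 1) (fun _ => q 2) (fun _ => q 3)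
        rw [SA4_hyp1, SA4_mk4] at this
        exact this
      have h0 : rank (slices 4) T ≤ 0 := by
        rw [hT]
        exact sInf_le ⟨0, rfl, SumOf.zero⟩
      have h1 : ((1 + ∑ s ∈ Finset.range 1, Gf m 1 s : ℕ) : ℕ∞) ≤ 0 := hrank.trans h0
      have h2 : (1 + ∑ s ∈ Finset.range 1, Gf m 1 s : ℕ) ≤ 0 := by exact_mod_cast h1
      omega

end Pool.Agent.helper35.MR
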