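import Pool.Agent.helper35.MR.SpecB

/-! mr:WC -/

set_option autoImplicit false

open Finset

namespace Pool.Agent.helper35.MR

open Pool.Agent.RRank

theorem WC_F {K : Type} [Field K] (F : Ordering → Ordering → K)
    (h1 : F .lt .lt - F .lt .gt - F .gt .lt + F .gt .gt = 0)
    (h2 : F .eq .lt - F .eq .gt - F .gt .lt + F .gt .gt = 0)
    (h3 : F .lt .eq - F .lt .gt - F .gt .eq + F .gt .gt = 0) (r s : Ordering) :
    F r s = (if r = .eq ∧ s = .eq then F .eq .eq - F .eq .gt - F .gt .eq + F .gt .gt else 0) +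
      ((if r = .lt then F .lt .gt - F .gt .gt else 0) + (if r = .eq then F .eq .gt - F .gt .gt else 0)) +
      ((if s = .lt then F .gt .lt - F .gt .gt else 0) + (if s = .eq then F .gt .eq - F .gt .gt else 0)) +
      F .gt .gt := by
  cases r <;> cases s <;> simp
  · linear_combination h1
  · linear_combination h3
  · linear_combination h2
  all_goals ring

theorem WC_pos (hDT : DT_stmt) (hPOS : POS_stmt) {K : Type} [Field K] (l : ℕ) (hl : 2 ≤ l) (u v : K)
    (hu : u ≠ 0) : ∃ x y : Fin l → Fin (2 * l),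
      (Matrix.of (fun i j : Fin l => (if cmp (x i) (y j) = Ordering.eq then u else 0) + v)).det ≠ 0 := by
  by_cases hv : v = 0
  · refine ⟨pC, pC, ?_⟩
    have h1 : Matrix.of (fun i j : Fin l => (if cmp (pC i) (pC j) = Ordering.eq then u else 0) + v) =
        Matrix.diagonal (fun _ : Fin l => u) := by
      ext i j
      rw [Matrix.of_apply, (hPOS l i j).2.2.1, hv, add_zero, Matrix.diagonal_apply]
      by_cases hij : i = j
      · subst hij
        simp
      · rw [if_neg hij, if_neg]
        intro h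
        exact hij ((cmp_eq_eq_iff i j).1 h)
    rw [h1, Matrix.det_diagonal]
    exact Finset.prod_ne_zero_iff.2 (fun _ _ => hu)
  · refine ⟨pC, pD, ?_⟩
    have h1 : Matrix.of (fun i j : Fin l => (if cmp (pC i) (pD j) = Ordering.eq then u else 0) + v) =
        Matrix.of (fun i j : Fin l => (if i = j ∧ i.1 + 1 ≠ l then u else 0) + v) := by
      ext i j
      rw [Matrix.of_apply, Matrix.of_apply, (hPOS l i j).2.2.2]
      congr 1
      by_cases hij : i = j
      · subst hij
        by_cases hl : i.1 + 1 = l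
        · simp [hl]
        · simp [hl]
      · rw [if_neg hij]
        have h3 : ¬ (cmp i j = Ordering.eq) := fun h => hij ((cmp_eq_eq_iff i j).1 h)
        rw [if_neg h3, if_neg (fun h => hij h.1)]
    rw [h1]
    exact (hDT K l (by omega)).2.2.1 u v hu hv

theorem WC (hWCF : WCF_stmt) (hPF : PF_stmt) (hDT : DT_stmt) (hPOS : POS_stmt) : WC_stmt := by
  intro K _ F h1 h2 h3 h4 l hl
  have hF := WC_F F h1 h2 h3
  set p := F .eq .eq - F .eq .gt - F .gt .eq + F .gt .gt with hp
  set a₁ := F .lt .gt - F .gt .gt with ha₁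
  set a₂ := F .eq .gt - F .gt .gt with ha₂
  set b₁ := F .gt .lt - F .gt .gt with hb₁
  set b₂ := F .gt .eq - F .gt .gt with hb₂
  set f := F .gt .gt with hf
  by_cases hex : a₁ = 0 ∧ b₁ = 0 ∧ f * p = a₂ * b₂
  · obtain ⟨e1, e2, e3⟩ := hex
    obtain ⟨x, y, hX⟩ := WC_pos hDT hPOS l hl p b₂ h4
    obtain ⟨z, w, hY⟩ := WC_pos hDT hPOS l hl (1 : K) (a₂ / p) one_ne_zero
    refine ⟨x, y, z, w, ?_⟩
    have h5 := hPF K l hl _ _ 0 hX hY
    refine cast (congrArg Full4 ?_) h5
    funext i j k m
    rw [hF, e1, e2]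
    have e4 : f = a₂ * b₂ / p := by
      rw [← e3]; field_simp
    rw [e4]
    generalize cmp (x i) (y j) = r
    generalize cmp (z k) (w m) = s
    cases r <;> cases s <;> simp <;> field_simp <;> ring
  · refine ⟨pC, pC, pC, pC, ?_⟩
    have h5 := hWCF K l hl p a₁ a₂ b₁ b₂ f h4 hex
    refine cast (congrArg Full4 ?_) h5
    funext i j k m
    rw [hF, (hPOS l i j).2.2.1, (hPOS l k m).2.2.1]
    simp only [cmp_eq_eq_iff, cmp_eq_lt_iff]

end Pool.Agent.helper35.MR
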