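import Pool.Agent.helper35.MR.SpecB

/-! mr:CONA -/

set_option autoImplicit false

open Finset

namespace Pool.Agent.helper35.MR

open Pool.Agent.RRank

section
variable {X Y Z W K : Type} [Field K]

theorem CONA_pr_swap {a b : ℕ} (t : Fin a → Fin b → K) (A : Fin a → X → Y → K) (B : Fin b → Z → W → K)
    (x : X) (y : Y) (z : Z) (w : W) :
    pr t A (fun q w z => B q z w) x y w z = pr t A B x y z w := rfl

theorem CONA_pr_zero {a b : ℕ} (t : Fin a → Fin b → K) (h : ∀ p q, t p q = 0)
    (A : Fin a → X → Y → K) (B : Fin b → Z → W → K) (x : X) (y : Y) (z : Z) (w : W) :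
    pr t A B x y z w = 0 := by
  unfold pr
  apply Finset.sum_eq_zero
  intro p _
  apply Finset.sum_eq_zero
  intro q _
  rw [h, zero_mul]

theorem CONA_ev1 [Fintype X] [Fintype Y] [Fintype Z] [Fintype W] (T : X → Y → Z → W → K) :
    ev4 (fun x z y w => T x y z w) = fun u w v q => ev4 T u v w q := by
  funext u w v q
  unfold ev4
  apply Finset.sum_congr rfl
  intro x _
  rw [Finset.sum_comm]
  apply Finset.sum_congr rfl
  intro y _
  apply Finset.sum_congr rfl
  intro z _
  apply Finset.sum_congr rfl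
  intro t _
  ring

theorem CONA_ev2 [Fintype X] [Fintype Y] [Fintype Z] [Fintype W] (T : X → Y → Z → W → K) :
    ev4 (fun x w y z => T x y z w) = fun u q v w => ev4 T u v w q := by
  funext u q v w
  unfold ev4
  apply Finset.sum_congr rfl
  intro x _
  rw [Finset.sum_comm]
  apply Finset.sum_congr rfl
  intro y _
  rw [Finset.sum_comm]
  apply Finset.sum_congr rfl
  intro z _
  apply Finset.sum_congr rfl
  intro t _
  ring

theorem CONA_S1 {r : ℕ} (S : X → Y → Z → W → K) (h : Sl r S) : Sl r (fun x z y w => S x y z w) := by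
  obtain ⟨a, a', b, b', c, c', d, d', hS⟩ := h
  refine ⟨a, fun n z y w => a' n y z w, c, fun n x y w => c' n x y w, b, fun n x z w => b' n x z w,
    d, fun n x z y => d' n x y z, ?_⟩
  intro x z y w
  show S x y z w = _
  rw [hS]
  unfold slSum
  ring

theorem CONA_S2 {r : ℕ} (S : X → Y → Z → W → K) (h : Sl r S) : Sl r (fun x w y z => S x y z w) := by
  obtain ⟨a, a', b, b', c, c', d, d', hS⟩ := h
  refine ⟨a, fun n w y z => a' n y z w, d, fun n x y z => d' n x y z, b, fun n x w z => b' n x z w,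
    c, fun n x w y => c' n x y w, ?_⟩
  intro x w y z
  show S x y z w = _
  rw [hS]
  unfold slSum
  ring

end

theorem CONA (hCON : CON_stmt) (hHSY : HSY_stmt) : CONA_stmt := by
  intro l N r K X Y Z W _ _ _ _ _ hl a b c d e f ha hb hc hd he hf T hT hhyp
  obtain ⟨S, t, u, v, A, B, C, D, E, F, hS, hTe, rA, rB, rC, rD, rE, rF⟩ := hT
  have h1 : ∀ p q, t p q = 0 :=
    hCON l N r K X Y Z W hl a b c d e f ha hb hc hd he hf T S t u v A B C D E F hS hTe rA rB hhyp
  have h2 : ∀ p q, u p q = 0 := by
    refine hCON l N r K X Z Y W hl c d a b e f hc hd ha hb he hf (fun x z y w => T x y z w)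
      (fun x z y w => S x y z w) u t v C D A B E (fun q z y => F q y z) (CONA_S1 S hS) ?_ rC rD ?_
    · intro x z y w
      show T x y z w = S x y z w + pr u C D x z y w + pr t A B x y z w + pr v E F x w y z
      rw [hTe]
      ring
    · intro ξ η ζ θ
      rw [CONA_ev1]
      rw [(hHSY K (X → K) (Y → K) (Z → K) (W → K) (ev4 T) l ξ ζ η θ).1]
      exact hhyp ξ ζ η θ
  have h3 : ∀ p q, v p q = 0 := by
    refine hCON l N r K X W Y Z hl e f a b c d he hf ha hb hc hd (fun x w y z => T x y z w)
      (fun x w y z => S x y z w) v t u E F A (fun q w z => B q z w) C (fun q w y => D q y w)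
      (CONA_S2 S hS) ?_ rE rF ?_
    · intro x w y z
      show T x y z w = S x y z w + pr v E F x w y z + pr t A B x y z w + pr u C D x z y w
      rw [hTe]
      ring
    · intro ξ η ζ θ
      rw [CONA_ev2]
      rw [(hHSY K (X → K) (Y → K) (Z → K) (W → K) (ev4 T) l ξ ζ θ η).2]
      exact hhyp ξ ζ θ η
  obtain ⟨a, a', b, b', c, c', d, d', hS'⟩ := hS
  refine ⟨a, a', b, b', c, c', d, d', ?_⟩
  intro x y z w
  rw [hTe, CONA_pr_zero t h1, CONA_pr_zero u h2, CONA_pr_zero v h3, hS']
  ring

end Pool.Agent.helper35.MR
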